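import Pool.Agent.H29.SX.Targets

set_option autoImplicit false

/-!
# MP_c65535_nt, the sharp exponent, row BOT: the theorem over the cyclotomic fields
-/

namespace Pool.Agent.H10.SX

open Pool.Agent.H29.SX Pool.Agent.H29.RQ Pool.Agent.H23.RDD Pool.Agent.H24.RD NumberField Height Finset Polynomial

theorem pf_BOT (h1 : T_LVB) (h2 : T_HB) (h3 : T_FINQ) (h4 : T_UNI) (h5 : T_FRL) (h6 : T_COR)
    (h7 : T_CNT) (h8 : T_NU3) (h9 : T_DPC) (h10 : T_EXM) (h11 : T_NOR) : T_BOT := by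
  classical
  intro F Ω _ _ _ _ _ _ _ r γ hγ ε hε
  have hQ : Algebra.IsAlgebraic ℚ Ω := Algebra.IsAlgebraic.trans ℚ F Ω
  obtain ⟨hnn, -, -, -, -, -, htor⟩ := h2 Ω
  obtain ⟨p, hp, hunit⟩ := h4 F r γ hγ.1
  have hn0 : 1 ≤ Module.finrank ℚ F := Module.finrank_pos
  set f : ℕ := 3 * (Module.finrank ℚ F).factorial with hf
  have hf3 : 3 ≤ f := by
    have := Nat.factorial_pos (Module.finrank ℚ F)
    omega
  obtain ⟨ε', hε', hε'ε, hnu⟩ := h8 p f (Module.finrank ℚ F) r ε hp.two_le (by omega) hn0 hε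
  obtain ⟨c1, hc1, hfin⟩ := h3 F Ω r γ hγ 1 one_pos
  obtain ⟨c2, hc2, hdpc⟩ := h9 F Ω p hp r γ hγ.1 ε' hε'
  have hHg : 1 ≤ Hg F Ω γ := by
    unfold Hg
    have : 0 ≤ ∑ i, absLogHeight₁ (algebraMap F Ω (γ i)) := Finset.sum_nonneg fun i _ => hnn _
    linarith
  obtain ⟨c3, hc3, hcnt⟩ := h7 r (Hg F Ω γ) hHg
  obtain ⟨c, hc, hcc2, hnum⟩ := hnu c1 c2 c3 hc1 hc2 hc3
  refine ⟨c, hc, ?_⟩
  intro N d hN hd α hrep hα
  -- the least number of conjugates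
  have hP : ∃ D' : ℕ, ∃ N₁ : ℕ, 0 < N₁ ∧ RepD F Ω γ N₁ 1 D' α := ⟨d, N, hN, hrep⟩
  obtain ⟨D, hDdef⟩ : ∃ D : ℕ, D = Nat.find hP := ⟨_, rfl⟩
  have hDs : ∃ N₁ : ℕ, 0 < N₁ ∧ RepD F Ω γ N₁ 1 D α := by
    rw [hDdef]
    exact Nat.find_spec hP
  have hDmin : ∀ N₁ d₁ : ℕ, 0 < N₁ → RepD F Ω γ N₁ 1 d₁ α → D ≤ d₁ := by
    intro N₁ d₁ hN₁ h
    rw [hDdef]
    exact Nat.find_min' hP ⟨N₁, hN₁, h⟩
  have hDd : D ≤ d := hDmin N d hN hrep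
  obtain ⟨N₁, hN₁, hrep₁⟩ := hDs
  have hD : 0 < D := by
    rcases Nat.eq_zero_or_pos D with h0 | h0
    · exfalso
      obtain ⟨β, -, ⟨s, hs, hs'⟩, -⟩ := hrep₁
      have h3 := hs' AlgEquiv.refl (fun z _ => rfl)
      rw [h0, Nat.le_zero, Finset.card_eq_zero] at hs
      rw [hs] at h3
      exact absurd h3 (Finset.notMem_empty _)
    · exact h0
  have hα0 : α ≠ 0 := by
    obtain ⟨β, hβ, -, -, g, hg, h⟩ := hrep₁
    rw [h]
    exact mul_ne_zero hβ hg.1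
  have hlam : 0 < absLogHeight₁ α := by
    rcases (hnn α).lt_or_eq with h | h
    · exact h
    · exfalso
      obtain ⟨n, hn, hn1⟩ := htor α hα0 h.symm
      refine hα ⟨hα0, n, hn, 0, ?_⟩
      rw [hn1]
      simp
  have hD1 : (1 : ℝ) ≤ (D : ℝ) := by exact_mod_cast hD
  by_contra hcon
  rw [not_le] at hcon
  have hlt : absLogHeight₁ α * (D : ℝ) ^ (1 + ε) < c := by
    refine lt_of_le_of_lt ?_ hcon
    refine mul_le_mul_of_nonneg_left ?_ hlam.le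
    refine Real.rpow_le_rpow (by positivity) (by exact_mod_cast hDd) (by linarith)
  have hlt2 : absLogHeight₁ α < c2 / (D : ℝ) ^ (1 + ε') := by
    rw [lt_div_iff₀ (Real.rpow_pos_of_pos (by linarith) _)]
    refine lt_of_le_of_lt ?_ (hlt.trans_le hcc2)
    exact mul_le_mul_of_nonneg_left (Real.rpow_le_rpow_of_exponent_le hD1 (by linarith)) hlam.le
  obtain ⟨n, N', hN', hN₁'⟩ := Nat.exists_eq_pow_mul_and_not_dvd hN₁.ne' p hp.ne_one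
  obtain ⟨v, hv, hdesc⟩ := hdpc D hD
  rw [hN₁'] at hrep₁
  have hrep₂ := hdesc n N' hN' α hrep₁ hlt2
  have hN'0 : 0 < N' := by
    rcases Nat.eq_zero_or_pos N' with h | h
    · exact absurd (h ▸ dvd_zero p) hN'
    · exact h
  have hM0 : 0 < p ^ v * N' := Nat.mul_pos (pow_pos hp.pos _) hN'0
  have hfin1 := hfin (p ^ v * N') 1 D hM0 (one_dvd _) hD α hrep₂ hα
  obtain ⟨β₀, hβ₀, hCj₀, hRed₀, g₀, hg₀, hα₀⟩ := hrep₂
  obtain ⟨β, g, n₁, x, hβ, hg, hmul, hCj, hRed, hgD, hn₁, hpow, hx⟩ :=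
    h11 F Ω r γ hγ.1 (Lv F Ω γ (p ^ v * N') 1) D β₀ g₀ hβ₀ hCj₀ hRed₀ hg₀
  have hαβ : β * g = α := by rw [hmul, ← hα₀]
  obtain ⟨hEK, X, hXD, hX1, hX2⟩ := h10 F Ω r γ hγ.1 (p ^ v * N') D β g hM0 hβ hCj hRed hgD
    (fun N₂ d₂ hN₂ h => hDmin N₂ d₂ hN₂ (by rw [← hαβ]; exact h))
  obtain ⟨Φ, hΦ⟩ := h5 F Ω p hp r γ hγ.1 v N' hN'
  obtain ⟨hfd, hgal, -, -, -, -⟩ := h1 F Ω r γ hγ.1 (p ^ v * N') 1 hM0 one_pos
  have hfin2 : c1 ≤ absLogHeight₁ α * (D : ℝ) ^ (2 * (r + 1)) := by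
    have h := hfin1
    rw [Nat.cast_one, one_pow, one_mul] at h
    have he : ((1 : ℝ) + 1) * ((r : ℝ) + 1) = ((2 * (r + 1) : ℕ) : ℝ) := by
      push_cast
      ring
    rw [he, Real.rpow_natCast] at h
    exact h
  obtain ⟨s, t, e0, k, e', σ, ρ, ht, hfe, hpk, hσ, hσ1, hσρ, hDc, hlast⟩ :=
    hnum D v (absLogHeight₁ α) hD hlam hfin2 hv hlt
  obtain ⟨S, hS, hScard⟩ := hcnt (absLogHeight₁ α) σ (fun i => (x i : ℝ) / n₁) hlam hσ hσ1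
  have hXS : X.card < S.card := by
    have h : (D : ℝ) < S.card := hDc.trans_le hScard
    have h' : D < S.card := by exact_mod_cast h
    omega
  have hδ : (0 : ℝ) < 1 / ((Module.finrank ℚ F * p ^ v : ℕ) : ℝ) := by
    have : 0 < Module.finrank ℚ F * p ^ v := Nat.mul_pos hn0 (pow_pos hp.pos _)
    positivity
  have hδ1 : 1 / ((Module.finrank ℚ F * p ^ v : ℕ) : ℝ) ≤ 1 := by
    have : 0 < Module.finrank ℚ F * p ^ v := Nat.mul_pos hn0 (pow_pos hp.pos _)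
    rw [div_le_one (by exact_mod_cast this)]
    exact_mod_cast this
  have h8f : 8 ≤ p ^ f := by
    calc 8 = 2 ^ 3 := by norm_num
      _ ≤ 2 ^ f := Nat.pow_le_pow_right (by norm_num) hf3
      _ ≤ p ^ f := Nat.pow_le_pow_left hp.two_le f
  have hnorm : ∀ (τ : Ω ≃ₐ[F] Ω), ∀ z ∈ Lv F Ω γ (p ^ v * N') 1, τ z ∈ Lv F Ω γ (p ^ v * N') 1 := by
    intro τ z hz
    have : IsAlgClosure F Ω := ⟨inferInstance, inferInstance⟩
    have : Normal F Ω := IsAlgClosure.normal F Ω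
    have hle := (IntermediateField.normal_iff_forall_map_le'.1 (hgal.to_normal)) τ
    exact hle ⟨z, hz, rfl⟩
  obtain ⟨R, d0, r0, hr0, hd0, hR, hRle, hineq⟩ := h6 F Ω p hp r γ hγ hunit
    (Lv F Ω γ (p ^ v * N') 1) hfd hnorm hEK f (1 / ((Module.finrank ℚ F * p ^ v : ℕ) : ℝ)) h8f hδ hδ1 Φ
    hΦ β g hβ hg n₁ x hn₁ hpow hx X hX1 hX2 hRed (by rw [hαβ]; exact hα) s t e0 k e' σ ρ ht hfe hpk
    hσ.le hσρ S (by rw [hαβ]; exact hS) hXS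
  rw [hαβ] at hRle hineq
  have := hlast R d0 r0 hr0 hd0 hR hRle
  linarith

end Pool.Agent.H10.SX
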